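import Pool.Agent.Results.MP_b7926e_nt.RandomOrbits
import Pool.Agent.U569.APL.Fam

set_option autoImplicit false

/-!
# MP_b7926e_nt: Zilber's conjecture for the translates of all subvarieties of tori by monomials in integers formed from
# arbitrary sets

`Good V Γ κ c` (starting file `RandomOrbits`), `c ∈ ℤ ^ L`: for all `s` with `κ s < L` and all integral `L × n` matrices
`e` such that no hyperplane through the origin contains more than `s` of the rows, the translate `g V` of `V` by the
vector `g_j = ∏_{l < L} c_l ^ e_{l j}` has no atypical subvariety at all, more generally no atypical intersection with a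
coset `η H` of an algebraic subgroup `H` by a point `η` whose coordinates are in the division hull of `Γ`.

Let a sequence (`j = 0, 1, 2, …`) of families of vectors in `ℤ ^ L` be given. The vectors of the `j`-th family are
`c₀ + y`, `c₀` an arbitrary integral vector (depending on `j`, of any size) and `y` one of the following vectors
(represented by `0, …, q - 1`):

* `y` in any family of vectors modulo some `q` (depending on `j`), whose nontrivial Fourier coefficients are at most
  `1 / (Z (42 + 3 log q) ^ L)`, where `Z → ∞`, `Z ≤ q`;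
* `β(x, z) + u(x) + w(z)` modulo a prime `P → ∞`, where `β : k ^ a × k ^ b → k ^ L` is bilinear, the nontrivial
  combinations of its coordinates have rank at least `ρ`, `x` and `z` are in ARBITRARY sets `E` and `F` with
  `|E| |F| ≥ P ^ (a + b - ρ + δ)`, `u` and `w` are arbitrary functions (for `δ > 0` fixed);
* the same for `β(x, z) = x z`, `x` and `z` in ARBITRARY subsets of the field of `P ^ L` elements,
  `|E| |F| ≥ P ^ (L + δ)`;
* polynomials in `k` variables of degree at most `P ^ (δ / 4)`, all nontrivial combinations of which have a monomial with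
  at least two variables, plus arbitrary functions of the single variables, on products of `k` ARBITRARY sets of at
  least `P ^ (1 / 2 + δ)` residues;
* polynomials in one variable of degree at most `P ^ (δ / 4)`, no nontrivial combination of which is constant, on any
  subgroup of the multiplicative group modulo `P` with at least `P ^ (1 / 2 + δ)` elements.

**Theorem.** There is a number `κ`, which depends on `V` only, and for every `L` and every sequence of families in `ℤ ^ L`
there are exceptions `E j`, `|E j| = o(size)`, such that for ALL dimensions `n`, ALL (uncountably many) irreducible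
subvarieties `V` of the torus `(ℂ^×)^n` over the complex numbers and ALL finitely generated subgroups `Γ` of `ℂ^×`, for large
`j` all the vectors of the `j`-th family outside of `E j` are good for `V` and `Γ`.

New: the families. The vectors without large primes dividing exactly one coordinate, exactly once, are pronull (starting
library `N24.RW`), and this is enough (`N712.ZT`); such sets contain few members of the families by the theorem of the
starting library `N384.VF` on vectors of residues; the estimates of the Fourier coefficients on arbitrary sets are in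
`U569/APL`.
-/

namespace Pool.Agent.Results.MP_b7926e_nt.ArbitrarySets

open Filter
open Pool.Agent.Results.MP_b7926e_nt.NoAtypical (idealOf)
open Pool.Agent.Results.MP_b7926e_nt.RandomOrbits (Good good_of_primes)
open Pool.Agent.U569.APL

open Classical in
/-- **Zilber's conjecture for translates by monomials in integers formed from arbitrary sets.** -/
theorem result : ∃ κ : (n : ℕ) → Set (Fin n → ℂ) → ℕ, ∀ L : ℕ,
    (∀ (τ : ℕ → Type) (s : ∀ j, Finset (τ j)) (v : ∀ j, τ j → Fin L → ℤ), FlatFamilies s v →
      ∃ E : ∀ j, Finset (τ j), Small s E ∧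
        ∀ (n : ℕ) (V : Set (Fin n → ℂ)), (idealOf V).IsPrime → ∀ Γ : Subgroup ℂˣ, Γ.FG →
          Outside s E v (Good V Γ (κ n V))) ∧
    Examples (Fin L) := by
  have hex : ∀ (n : ℕ) (V : Set (Fin n → ℂ)), ∃ κ : ℕ, (idealOf V).IsPrime →
      ∀ Γ : Subgroup ℂˣ, Γ.FG → ∃ D : ℕ, ∀ (L : ℕ) (c : Fin L → ℤ),
        (∀ l, ∃ p : ℕ, p.Prime ∧ D < p ∧ (p : ℤ) ∣ c l ∧ ¬ ((p : ℤ) ^ 2 ∣ c l) ∧
          ∀ j, j ≠ l → ¬ (p : ℤ) ∣ c j) → Good V Γ κ c := by
    intro n V
    by_cases hV : (idealOf V).IsPrime
    · obtain ⟨κ, hκ⟩ := Pool.Agent.N712.ZT.translates V hV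
      refine ⟨κ, fun _ Γ hΓ => ?_⟩
      obtain ⟨D, hD⟩ := hκ Γ hΓ
      exact ⟨D, fun L c hc => good_of_primes hD c hc⟩
    · exact ⟨0, fun h => absurd h hV⟩
  choose κ hκ using hex
  refine ⟨κ, fun L => ⟨fun τ s v hs => ?_, examples _⟩⟩
  obtain ⟨E, hE, h2⟩ := flat_diag hs (fun D : ℕ =>
    {c : Fin L → ℤ | ¬ ∀ l : Fin L, ∃ p : ℕ, p.Prime ∧ D < p ∧ (p : ℤ) ∣ c l ∧
      ¬ ((p : ℤ) ^ 2 ∣ c l) ∧ ∀ j, j ≠ l → ¬ (p : ℤ) ∣ c j})
    (fun D => Pool.Agent.N24.RW.t_ONE Pool.Agent.N24.RW.t_CRIT Pool.Agent.N24.RW.t_CLO (Fin L) D)
  refine ⟨E, hE, fun n V hV Γ hΓ => ?_⟩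
  obtain ⟨D, hD⟩ := hκ n V hV Γ hΓ
  filter_upwards [h2 D] with j hj i hi hi2
  exact hD L _ (not_not.mp (hj i hi hi2))

end Pool.Agent.Results.MP_b7926e_nt.ArbitrarySets
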