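import Pool.Agent.N712.ZT.Sets
import Pool.Agent.U828.KD.OrdNull

/-!
# MP_b7926e_nt: functions of given order and Zilber's conjecture for translates of all subvarieties of tori

A function `f : ℕ → ℝ` is of order `c` if for some `d > c` its differences of order `d` have a constant sign
and lie between `t ^ (c - d - ε)` and `t ^ (c - d + ε)` for every `ε > 0` and all large `t`. Nothing else is
assumed: `f` needs no smoothness and no formula, and a real polynomial of degree below `d` may be added.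

For an infinite sequence `f_0, f_1, …` of functions of different orders there is ONE set `E` of integers of
density zero such that for all irreducible subvarieties `V` of all tori, all finitely generated `Γ` and all
matrices `e` in general position with sufficiently many rows, the translates of `V` by the vectors
`g_j(t) = ∏_l |⌊f_l(t)⌋| ^ e_{l j}` have no atypical subvariety (more generally no atypical intersection with
a coset by a point of the division hull of `Γ`) for all but finitely many `t` outside `E`.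

The starting file `OneNullSet` has generalised polynomials with non-integral leading exponents. New: the theorem
`Pool.Agent.U828.KD.order_well` on the joint equidistribution of the integer parts of functions of given
orders modulo all integers up to a power of `N`, by a derivative test of order `d` for functions
without smoothness.
-/

set_option autoImplicit false

namespace Pool.Agent.Results.MP_b7926e_nt.FunctionsOfGivenOrder

open MvPolynomial
open Pool.Agent.Results.MP_b7926e_nt.NoAtypical (coset idealOf dim)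

/-- The differences of order `d` of `f` have a constant sign and are `t ^ (c - d + o(1))` in absolute value. -/
def Order (d : ℕ) (c : ℝ) (f : ℕ → ℝ) : Prop :=
  ∀ ε : ℝ, 0 < ε → ∃ T : ℕ,
    (∀ t : ℕ, T ≤ t → (t : ℝ) ^ (c - d - ε) ≤ (fwdDiff 1)^[d] f t ∧
      (fwdDiff 1)^[d] f t ≤ (t : ℝ) ^ (c - d + ε)) ∨
    (∀ t : ℕ, T ≤ t → (t : ℝ) ^ (c - d - ε) ≤ -(fwdDiff 1)^[d] f t ∧
      -(fwdDiff 1)^[d] f t ≤ (t : ℝ) ^ (c - d + ε))

/-- For every `k` the functions `f_0, …, f_k` have the orders `c_0, …, c_k`, with a common order of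
differences. -/
def Orders (c : ℕ → ℝ) (f : ℕ → ℕ → ℝ) : Prop :=
  ∀ k : ℕ, ∃ d : ℕ, 2 ≤ d ∧ ∀ l ≤ k, c l < d ∧ Order d (c l) (f l)

/-- The absolute value of the integer part of `f_l(t)`. -/
noncomputable def value (f : ℕ → ℕ → ℝ) (l t : ℕ) : ℕ := (⌊f l t⌋).natAbs

/-- `E` has density zero. -/
def Null (E : Set ℕ) : Prop :=
  ∀ ε : ℝ, 0 < ε → ∃ N₀ : ℕ, ∀ N : ℕ, N₀ ≤ N →
    ({t : ℕ | t ∈ Finset.Ioc N (2 * N) ∧ t ∈ E}.ncard : ℝ) ≤ ε * N

/-- The translate of `V` by the vector `g`. -/
def translate {n : ℕ} (g : Fin n → ℂ) (V : Set (Fin n → ℂ)) : Set (Fin n → ℂ) :=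
  {y | ∃ x ∈ V, ∀ i, y i = g i * x i}

/-- Every irreducible subset `A` of the intersection of `W` with a coset `η H` of an algebraic subgroup
`H`, such that a power of every coordinate of `η` is in `Γ`, satisfies `dim A ≤ dim W + dim H - n`, where
`dim H = n - rank M`. For `Γ = 1` this means that `W` has no atypical subvariety. -/
def NoAtypical {n : ℕ} (Γ : Subgroup ℂˣ) (W : Set (Fin n → ℂ)) : Prop :=
  ∀ (M : Submodule ℤ (Fin n → ℤ)) (η : Fin n → ℂ),
    (∀ i, ∃ m : ℕ, 0 < m ∧ ∃ γ ∈ Γ, η i ^ m = (γ : ℂ)) →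
    ∀ A : Set (Fin n → ℂ), A ⊆ W → A ⊆ coset M η → (idealOf A).IsPrime →
      dim A + (Module.finrank ℤ M : Cardinal) ≤ dim W

/-- At most `s` of the rows of `e` are orthogonal to a given nonzero vector. -/
def GeneralPosition {L n : ℕ} (s : ℕ) (e : Fin L → Fin n → ℤ) : Prop :=
  ∀ χ : Fin n → ℤ, χ ≠ 0 → {l | ∑ j, χ j * e l j = 0}.ncard ≤ s

theorem result (c : ℕ → ℝ) (hc0 : ∀ l, 0 < c l) (hc : Function.Injective c) (f : ℕ → ℕ → ℝ)
    (hf : Orders c f) :
    ∃ E : Set ℕ, Null E ∧
      ∀ (n : ℕ) (V : Set (Fin n → ℂ)), (idealOf V).IsPrime → ∃ κ : ℕ,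
        ∀ Γ : Subgroup ℂˣ, Γ.FG → ∀ L s : ℕ, κ * s < L →
          ∀ e : Fin L → Fin n → ℤ, GeneralPosition s e →
            {t : ℕ | t ∉ E ∧ ¬ NoAtypical Γ
              (translate (fun j => ∏ l : Fin L, (value f l t : ℂ) ^ e l j) V)}.Finite := by
  obtain ⟨E, h1, h3⟩ := Pool.Agent.U828.KD.order_null_set hc0 hc f hf
  refine ⟨E, fun ε hε => ?_, fun n V hV => ?_⟩
  · obtain ⟨N₀, hN₀⟩ := h1 ε hε
    refine ⟨N₀, fun N hN => (hN₀ N hN).trans (le_of_eq ?_)⟩
    simp only
    rw [Nat.card_Ioc, show 2 * N - N = N by omega]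
  obtain ⟨κ, hκ⟩ := Pool.Agent.N712.ZT.translates V hV
  refine ⟨κ, fun Γ hΓ L s hL e he => ?_⟩
  obtain ⟨D, hD⟩ := hκ Γ hΓ
  refine (h3 (D + L)).subset ?_
  rintro t ⟨htE, ht⟩
  refine ⟨htE, fun hgood => ht ?_⟩
  choose p hp1 hp2 hp3 hp4 hp5 using hgood
  have hlt : ∀ l : Fin L, (l : ℕ) < D + L + 1 := fun l => by have := l.2; omega
  -- the divisibilities for the absolute values
  have hd1 : ∀ l : Fin L, p l (hlt l) ∣ value f l t := fun l => Int.natCast_dvd.mp (hp3 l (hlt l))
  have hd2 : ∀ l : Fin L, ¬ p l (hlt l) ^ 2 ∣ value f l t := by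
    intro l hd
    apply hp4 l (hlt l)
    have := Int.natCast_dvd.mpr hd
    push_cast at this
    exact this
  have hd3 : ∀ l l' : Fin L, l' ≠ l → ¬ p l (hlt l) ∣ value f l' t := fun l l' hl' hd =>
    hp5 l (hlt l) l' (hlt l') (fun heq => hl' (Fin.ext heq)) (Int.natCast_dvd.mpr hd)
  have hne : ∀ l : Fin L, (value f l t : ℂ) ≠ 0 := by
    intro l h0
    apply hd2 l
    have h4 : value f l t = 0 := by exact_mod_cast h0
    rw [h4]
    exact dvd_zero _
  have hunit : ∀ (l : Fin L) (O : ValuationSubring ℂ), (p l (hlt l) : ℂ) ∈ O.nonunits →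
      ∀ k : ℕ, ¬ p l (hlt l) ∣ k → O.valuation (k : ℂ) = 1 := by
    intro l O hO k hk
    rw [ValuationSubring.mem_nonunits_iff] at hO
    have h4 : IsCoprime (k : ℤ) ((p l (hlt l) : ℕ) : ℤ) :=
      Nat.isCoprime_iff_coprime.2 (((hp1 l (hlt l)).coprime_iff_not_dvd.2 hk).symm)
    have h5 := Pool.Agent.H173R3.ZT.val_int_eq_one O hO h4
    simpa using h5
  intro M η hη A hAV hAT hA
  refine hD L s hL (fun l => p l (hlt l)) (fun l => ⟨hp1 l (hlt l), ?_⟩) e he _
    (fun j => Finset.prod_ne_zero_iff.2 fun l _ => zpow_ne_zero _ (hne l)) (fun i j O hO => ?_)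
    M η hη A hAV hAT hA
  · have := hp2 l (hlt l)
    change D < p l (hlt l)
    omega
  · rw [map_prod, Finset.prod_eq_single i]
    · rw [map_zpow₀]
      congr 1
      obtain ⟨k, hk⟩ := hd1 i
      have hk2 : ¬ p i (hlt i) ∣ k := by
        rintro ⟨r, hr⟩
        apply hd2 i
        rw [hk, hr]
        exact ⟨r, by ring⟩
      rw [hk]
      push_cast
      rw [map_mul, hunit i O hO k hk2, mul_one]
    · intro l _ hl
      rw [map_zpow₀, hunit i O hO _ (hd3 i l hl), one_zpow]
    · intro hi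
      exact absurd (Finset.mem_univ i) hi

end Pool.Agent.Results.MP_b7926e_nt.FunctionsOfGivenOrder
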