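import Pool.Agent.Results.MP_b7926e_nt.RandomOrbits
import Pool.Agent.U125.NO.Seq

/-!
# MP_b7926e_nt: Zilber's conjecture for the translates of all subvarieties of tori along normal sequences

For a subvariety `V` of the torus `(ℂ^×)^n` and an integral vector `c ∈ ℤ^L` we consider the translates `g V` by
the vectors `g_j = ∏_{l < L} c_l ^ e_{l j}`, where `e` is an integral `L × n` matrix such that no hyperplane through
the origin contains more than `s` of the rows. `Good V Γ κ c` says that for all `s` with `κ s < L` and all such `e`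
the translate has no atypical subvariety at all, more generally no atypical intersection with a coset `η H`
of an algebraic subgroup by a point `η` whose coordinates are in the division hull of `Γ` (definitions of the
starting result `RandomOrbits`, where the vectors run through almost every random orbit of a thin group).

**Theorem.** Let `c_0, c_1, …` be a normal orbit in `ℤ^L` (`NormalOrbit`): the orbit of an integral vector under a
finite family of integral affine maps along ANY normal sequence of indices, the family being wide (for all `q`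
prime to some `q₀` the maps are bijective modulo `q`, and the vector can be moved to at least the proportion
`ε > 0`, not depending on `q`, of all vectors modulo `q`). There is ONE set `E` of times of density zero such that
for ALL dimensions `n`, ALL irreducible subvarieties `V` of the torus `(ℂ^×)^n` and ALL finitely generated subgroups
`Γ` of `ℂ^×` the vector `c_m` is `Good V Γ κ`, where `κ` depends on `V` only, for all but finitely many `m ∉ E`.

Examples: (1) `c_m = (⌊b ^ m ξ_l⌋)_l` for ANY vector `ξ` of real numbers which is normal to the base `b ≥ 2`;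
(2) the orbit of any vector `v ≠ 0` along ANY normal word in matrices which generate the special linear
group modulo all `q` prime to some `q₀` (generators of a thin group); (3) vectors of integers whose digits are
chosen from a restricted set of vectors.

Proof. Outside of pronull sets every coordinate `c_l` has a prime `p_l > D` which divides it exactly once and
divides no other coordinate, and such translates are good for the starting library (`Pool.Agent.N712.ZT`,
`good_of_primes`). Normal orbits visit a pronull set only at times of density zero (engine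
`Pool.Agent.U125.NO`), and a diagonal argument gives one set `E`.
-/

set_option autoImplicit false

namespace Pool.Agent.Results.MP_b7926e_nt.NormalSequences

open Filter Topology
open Pool.Agent.U125.NO (NormalOrbit Examples examples)
open Pool.Agent.Results.MP_b7926e_nt.NoAtypical (idealOf)
open Pool.Agent.Results.MP_b7926e_nt.RandomOrbits (Good good_of_primes)

/-- The set `E` of natural numbers has density zero. -/
def Null (E : Set ℕ) : Prop :=
  Tendsto (fun N : ℕ => (({m : ℕ | m < N ∧ m ∈ E}.ncard : ℕ) : ℝ) / (N : ℝ)) atTop (𝓝 0)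

theorem result :
    (∃ κ : (n : ℕ) → Set (Fin n → ℂ) → ℕ,
      ∀ (L : ℕ) (c : ℕ → Fin L → ℤ), NormalOrbit c → ∃ E : Set ℕ, Null E ∧
        ∀ (n : ℕ) (V : Set (Fin n → ℂ)), (idealOf V).IsPrime → ∀ Γ : Subgroup ℂˣ, Γ.FG →
          {m : ℕ | m ∉ E ∧ ¬ Good V Γ (κ n V) (c m)}.Finite) ∧
    ∀ L : ℕ, Examples (Fin L) := by
  have hex : ∀ (n : ℕ) (V : Set (Fin n → ℂ)), ∃ κ : ℕ, (idealOf V).IsPrime →
      ∀ Γ : Subgroup ℂˣ, Γ.FG → ∃ D : ℕ, ∀ (L : ℕ) (c : Fin L → ℤ),
        (∀ l, ∃ p : ℕ, p.Prime ∧ D < p ∧ (p : ℤ) ∣ c l ∧ ¬ ((p : ℤ) ^ 2 ∣ c l) ∧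
          ∀ j, j ≠ l → ¬ (p : ℤ) ∣ c j) → Good V Γ κ c := by
    intro n V
    by_cases hV : (idealOf V).IsPrime
    · obtain ⟨κ, hκ⟩ := Pool.Agent.N712.ZT.translates V hV
      refine ⟨κ, fun _ Γ hΓ => ?_⟩
      obtain ⟨D, hD⟩ := hκ Γ hΓ
      exact ⟨D, fun L c hc => good_of_primes hD c hc⟩
    · exact ⟨0, fun h => absurd h hV⟩
  choose κ hκ using hex
  refine ⟨⟨κ, fun L c hc => ?_⟩, fun L => examples (Fin L)⟩
  obtain ⟨E, hE1, hE2⟩ := hc.avoids.diag (fun D : ℕ => fun x : Fin L → ℤ => ¬ ∀ l : Fin L, ∃ p : ℕ,
    p.Prime ∧ D < p ∧ (p : ℤ) ∣ x l ∧ ¬ ((p : ℤ) ^ 2 ∣ x l) ∧ ∀ j, j ≠ l → ¬ (p : ℤ) ∣ x j)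
    (fun D => Pool.Agent.N24.RW.t_ONE Pool.Agent.N24.RW.t_CRIT Pool.Agent.N24.RW.t_CLO (Fin L) D)
  refine ⟨E, hE1, fun n V hV Γ hΓ => ?_⟩
  obtain ⟨D, hD⟩ := hκ n V hV Γ hΓ
  refine (hE2 D).subset ?_
  rintro m ⟨hm1, hm2⟩
  exact ⟨hm1, fun h => hm2 (hD L _ h)⟩

end Pool.Agent.Results.MP_b7926e_nt.NormalSequences
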