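import Pool.Agent.N712.ZT.Sets
import Pool.Agent.U163.ZP.Elim

/-!
# MP_b7926e_nt: Zilber's conjecture for translates of all subvarieties of tori, with several parameters

Let `V` be any irreducible subvariety of the torus `(ℂ^×)^n` (over the complex numbers, of any dimension
and degree). Let `W ⊆ 𝔸^ν` be an irreducible affine variety over `ℚ` of dimension at most `r` (the
parameter space), given by its prime ideal `P`, and let `F_1, …, F_M` be polynomials over `ℤ` such that
any `r + 1` of the functions `F_l` on `W` are multiplicatively independent modulo constants. The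
parameters `t` are the integral points of `W` at which the `F_l` have almost coprime values: the common
prime divisors of two different values `F_l (t)`, `F_l' (t)` are at most `b`; moreover for `l` in a given
set `U` the value `F_l (t)` is composed of primes `≤ b` (`Admissible`). We study the translates `g(t) V` of
`V` by the vectors

`g_j (t) = ∏_l F_l (t) ^ e_{l j}`

with integral exponents `e_{l j}`, positive or negative.

**Theorem.** There is a number `κ`, which depends on `V` only, such that for every finitely generated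
subgroup `Γ` of `ℂ^×` the following holds if `κ s < L` and `M ≥ L + r`. There is a function `H` on `W`,
not identically zero, such that for ALL exponents `e` for which no hyperplane through the origin contains
more than `s` of the rows `e_l`, `l ∉ U`, and for all admissible parameters `t` with `H (t) ≠ 0` the
translate `g(t) V` has no atypical subvariety at all, more generally no atypical intersection with a
coset `η H'` of an algebraic subgroup by a point `η` whose coordinates are in the division hull of `Γ`:
every irreducible subset `A` of `g(t) V ∩ η H'` satisfies `dim A ≤ dim V + dim H' - n`. So the exceptional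
parameters are on one proper closed subset of `W`, which does not depend on `e`. If `W` is a cone and the
`F_l` are forms, then `H` can be taken to be a form; then the exceptional parameters are in a proper
closed cone (a finite number of lines, if `r = 2`).

In particular (second part) let `F_1, …, F_M` be nonconstant polynomials in `r` variables over `ℤ`,
pairwise coprime over `ℚ`, `M ≥ L + r`. Then all exceptional `t ∈ ℤ^r` at which the values of the `F_l`
are almost coprime are on one hypersurface `H = 0` (a cone, if the `F_l` are forms).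

The starting files have theorems for a positive proportion of all translates (`NoAtypical`), for
sequences outside a set of density zero (`OneNullSet`, `MetricSequences`), for translates by S-units
(`AlmostAllSUnitTranslates`) and for families with one parameter (`FewExceptionalParameters`).

Proof. The local criterion `Pool.Agent.N712.ZT.translates` of the starting library needs `L` large primes
at which the vectors of the valuations of `g` are in general position. If `g(t) V` has an atypical
intersection then less than `L` of the values `F_l (t)` have a prime divisor `> max (D, b)`, so that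
`r + 1` of them are `S`-units for a fixed finite set `S`. There is an algebraic relation between these
`r + 1` functions on `W`; a relation with the smallest number of terms has at least two terms and no
vanishing subsum on `W`. Its value at `t` is a sum of `S`-units which is zero; hence a proper subsum
vanishes at `t`, or the ratio of two of the terms, which is not constant on `W` because of the
multiplicative independence, has one of finitely many values (unit equation, starting library).
-/

set_option autoImplicit false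

namespace Pool.Agent.Results.MP_b7926e_nt.SeveralParameters

open MvPolynomial
open Pool.Agent.Results.MP_b7926e_nt.NoAtypical (coset idealOf dim)

/-- The translate of `V` by the vector `g`. -/
def translate {n : ℕ} (g : Fin n → ℂ) (V : Set (Fin n → ℂ)) : Set (Fin n → ℂ) :=
  {y | ∃ x ∈ V, ∀ i, y i = g i * x i}

/-- Every irreducible subset `A` of the intersection of `W` with a coset `η H` of an algebraic subgroup
`H`, such that a power of every coordinate of `η` is in `Γ`, satisfies `dim A ≤ dim W + dim H - n`, where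
`dim H = n - rank M`. For `Γ = 1` this means that `W` has no atypical subvariety. -/
def NoAtypical {n : ℕ} (Γ : Subgroup ℂˣ) (W : Set (Fin n → ℂ)) : Prop :=
  ∀ (M : Submodule ℤ (Fin n → ℤ)) (η : Fin n → ℂ),
    (∀ i, ∃ m : ℕ, 0 < m ∧ ∃ γ ∈ Γ, η i ^ m = (γ : ℂ)) →
    ∀ A : Set (Fin n → ℂ), A ⊆ W → A ⊆ coset M η → (idealOf A).IsPrime →
      dim A + (Module.finrank ℤ M : Cardinal) ≤ dim W

/-- Any `r + 1` of the functions `F l` are multiplicatively independent modulo constants on the variety
of the prime ideal `P`. -/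
def MultIndependent {ν M : ℕ} (P : Ideal (MvPolynomial (Fin ν) ℚ)) (r : ℕ)
    (F : Fin M → MvPolynomial (Fin ν) ℤ) : Prop :=
  ∀ s : Finset (Fin M), s.card = r + 1 → ∀ a a' : Fin M → ℕ, (∀ l, l ∉ s → a l = 0 ∧ a' l = 0) →
    a ≠ a' → ∀ α : ℚ, ∏ l, map (Int.castRingHom ℚ) (F l) ^ a l -
      C α * ∏ l, map (Int.castRingHom ℚ) (F l) ^ a' l ∉ P

/-- The admissible parameters `t`: integral points of the variety of `P` such that the values of
two different `F l` have no common prime divisor larger than `b`, and the values of the `F l` with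
`l ∈ U` have no prime divisor larger than `b`. -/
def Admissible {ν M : ℕ} (P : Ideal (MvPolynomial (Fin ν) ℚ)) (F : Fin M → MvPolynomial (Fin ν) ℤ)
    (U : Finset (Fin M)) (b : ℕ) (t : Fin ν → ℤ) : Prop :=
  (∀ f ∈ P, eval (fun i => (t i : ℚ)) f = 0) ∧
  (∀ l ∈ U, ∀ p : ℕ, p.Prime → (p : ℤ) ∣ eval t (F l) → p ≤ b) ∧
  ∀ l l', l ≠ l' → ∀ p : ℕ, p.Prime → (p : ℤ) ∣ eval t (F l) → (p : ℤ) ∣ eval t (F l') → p ≤ b

/-- At most `s` of the rows of `e` with index outside of `U` are orthogonal to a given nonzero
vector. -/
def GeneralPosition {M n : ℕ} (U : Finset (Fin M)) (s : ℕ) (e : Fin M → Fin n → ℤ) : Prop :=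
  ∀ χ : Fin n → ℤ, χ ≠ 0 → {l | l ∉ U ∧ ∑ j, χ j * e l j = 0}.ncard ≤ s

/-- The vector `g (t)` of the numbers `∏_l F_l (t) ^ e_{l j}`. -/
noncomputable def vec {n ν M : ℕ} (F : Fin M → MvPolynomial (Fin ν) ℤ) (e : Fin M → Fin n → ℤ)
    (t : Fin ν → ℤ) : Fin n → ℂ :=
  fun j => ∏ l, ((eval t (F l) : ℤ) : ℂ) ^ e l j

/-- **Zilber's conjecture for the translates of an arbitrary subvariety of the torus with several
parameters.** -/
theorem result (n : ℕ) (V : Set (Fin n → ℂ)) (hV : (idealOf V).IsPrime) :
    ∃ κ : ℕ, ∀ Γ : Subgroup ℂˣ, Γ.FG → ∀ L s : ℕ, κ * s < L → ∀ M r : ℕ, L + r ≤ M →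
    ∀ (U : Finset (Fin M)) (b : ℕ),
    (∀ (ν : ℕ) (P : Ideal (MvPolynomial (Fin ν) ℚ)), P.IsPrime →
      Algebra.trdeg ℚ (MvPolynomial (Fin ν) ℚ ⧸ P) ≤ r →
      ∀ F : Fin M → MvPolynomial (Fin ν) ℤ, MultIndependent P r F →
      ∃ H : MvPolynomial (Fin ν) ℚ, H ∉ P ∧
        ((∀ f ∈ P, ∀ j, homogeneousComponent j f ∈ P) → (∀ l, ∃ j, (F l).IsHomogeneous j) →
          ∃ j, H.IsHomogeneous j) ∧
        ∀ e : Fin M → Fin n → ℤ, GeneralPosition U s e → ∀ t, Admissible P F U b t →
          eval (fun i => (t i : ℚ)) H ≠ 0 → NoAtypical Γ (translate (vec F e t) V)) ∧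
    ∀ F : Fin M → MvPolynomial (Fin r) ℤ, (∀ l, 0 < (F l).totalDegree) →
      (∀ l l', l ≠ l' → IsRelPrime (map (Int.castRingHom ℚ) (F l)) (map (Int.castRingHom ℚ) (F l'))) →
      ∃ H : MvPolynomial (Fin r) ℚ, H ≠ 0 ∧
        ((∀ l, ∃ j, (F l).IsHomogeneous j) → ∃ j, H.IsHomogeneous j) ∧
        ∀ e : Fin M → Fin n → ℤ, GeneralPosition U s e → ∀ t, Admissible ⊥ F U b t →
          eval (fun i => (t i : ℚ)) H ≠ 0 → NoAtypical Γ (translate (vec F e t) V) := by
  classical
  obtain ⟨κ, hκ⟩ := Pool.Agent.N712.ZT.translates V hV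
  refine ⟨κ, fun Γ hΓ L s hLs M r hM U b => ?_⟩
  obtain ⟨D, hD⟩ := hκ Γ hΓ
  have hLpos : 0 < L := lt_of_le_of_lt (Nat.zero_le _) hLs
  have main : ∀ (ν : ℕ) (P : Ideal (MvPolynomial (Fin ν) ℚ)), P.IsPrime →
      Algebra.trdeg ℚ (MvPolynomial (Fin ν) ℚ ⧸ P) ≤ r →
      ∀ F : Fin M → MvPolynomial (Fin ν) ℤ, MultIndependent P r F →
      ∃ H : MvPolynomial (Fin ν) ℚ, H ∉ P ∧
        ((∀ f ∈ P, ∀ j, homogeneousComponent j f ∈ P) → (∀ l, ∃ j, (F l).IsHomogeneous j) →
          ∃ j, H.IsHomogeneous j) ∧
        ∀ e : Fin M → Fin n → ℤ, GeneralPosition U s e → ∀ t, Admissible P F U b t →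
          eval (fun i => (t i : ℚ)) H ≠ 0 → NoAtypical Γ (translate (vec F e t) V) := by
    intro ν P hP hr F hF
    obtain ⟨H, hH, hhom, hcore⟩ := Pool.Agent.U163.ZP.core P L r hLpos hM hr F
      (fun s hs a a' ha ha' hne α => hF s hs a a'
        (fun l hl => ⟨Finsupp.notMem_support_iff.1 fun h => hl (ha h),
          Finsupp.notMem_support_iff.1 fun h => hl (ha' h)⟩)
        (fun h => hne (DFunLike.coe_injective h)) α) U D b
    refine ⟨H, hH, hhom, fun e he t ht htH => ?_⟩
    obtain ⟨ht0, j, hj, hjU, p, hp⟩ := hcore t ht.1 ht.2.1 ht.2.2 htH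
    -- the exponents of the primes
    set v : Fin L → ℕ := fun a => (eval t (F (j a))).natAbs.factorization (p a) with hv
    have hvpos : ∀ a, 0 < v a := fun a =>
      (hp a).1.factorization_pos_of_dvd (Int.natAbs_ne_zero.2 (ht0 _))
        (Int.natCast_dvd.1 (hp a).2.2.1)
    have hunit : ∀ (a : Fin L) (O : ValuationSubring ℂ), (p a : ℂ) ∈ O.nonunits →
        ∀ k : ℤ, ¬ (p a : ℤ) ∣ k → O.valuation (k : ℂ) = 1 := by
      intro a O hO k hk
      rw [ValuationSubring.mem_nonunits_iff] at hO
      have h4 : IsCoprime k ((p a : ℕ) : ℤ) :=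
        (((Nat.prime_iff_prime_int.1 (hp a).1).coprime_iff_not_dvd).2 hk).symm
      exact Pool.Agent.H173R3.ZT.val_int_eq_one O hO h4
    have hval : ∀ (a : Fin L) (O : ValuationSubring ℂ), (p a : ℂ) ∈ O.nonunits →
        O.valuation ((eval t (F (j a)) : ℤ) : ℂ) = O.valuation (p a : ℂ) ^ v a := by
      intro a O hO
      have h0 : (eval t (F (j a))).natAbs ≠ 0 := Int.natAbs_ne_zero.2 (ht0 _)
      have h1 := Nat.ordProj_mul_ordCompl_eq_self (eval t (F (j a))).natAbs (p a)
      have h2 : ¬ p a ∣ (eval t (F (j a))).natAbs / p a ^ v a :=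
        Nat.not_dvd_ordCompl (hp a).1 h0
      set k := (eval t (F (j a))).natAbs / p a ^ v a with hk
      have h3 : ¬ (p a : ℤ) ∣ (k : ℤ) := fun h => h2 (Int.natCast_dvd_natCast.1 h)
      have h4 : (((eval t (F (j a))).natAbs : ℕ) : ℂ) = (p a : ℂ) ^ v a * ((k : ℤ) : ℂ) := by
        rw [← h1]
        push_cast
        rfl
      have h5 : O.valuation ((eval t (F (j a)) : ℤ) : ℂ) =
          O.valuation (((eval t (F (j a))).natAbs : ℕ) : ℂ) := by
        rcases Int.natAbs_eq (eval t (F (j a))) with h6 | h6
        · conv_lhs => rw [h6]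
          rw [Int.cast_natCast]
        · conv_lhs => rw [h6]
          rw [Int.cast_neg, Int.cast_natCast, Valuation.map_neg]
      rw [h5, h4, map_mul, map_pow, hunit a O hO _ h3, mul_one]
    have hne : ∀ l, ((eval t (F l) : ℤ) : ℂ) ≠ 0 := fun l => by exact_mod_cast ht0 l
    intro N η hη A hAV hAT hA
    refine hD L s hLs p (fun a => ⟨(hp a).1, (hp a).2.1⟩) (fun a i => (v a : ℤ) * e (j a) i) ?_ _
      (fun i => Finset.prod_ne_zero_iff.2 fun l _ => zpow_ne_zero _ (hne l)) (fun a i O hO => ?_)
      N η hη A hAV hAT hA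
    · intro χ hχ
      refine le_trans ?_ (he χ hχ)
      refine Set.ncard_le_ncard_of_injOn j ?_ (fun a _ a' _ h => hj h) (Set.toFinite _)
      intro a ha
      rw [Set.mem_ofPred_eq] at ha
      refine ⟨hjU a, ?_⟩
      have h1 : (v a : ℤ) * ∑ i, χ i * e (j a) i = 0 := by
        rw [← ha, Finset.mul_sum]
        exact Finset.sum_congr rfl fun i _ => by ring
      rcases mul_eq_zero.1 h1 with h2 | h2
      · have := hvpos a
        have h3 : v a = 0 := by exact_mod_cast h2
        omega
      · exact h2
    · rw [map_prod, Finset.prod_eq_single (j a)]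
      · rw [map_zpow₀, hval a O hO, ← zpow_natCast, ← zpow_mul]
      · intro l _ hl
        rw [map_zpow₀, hunit a O hO _ ((hp a).2.2.2 l hl), one_zpow]
      · intro hi
        exact absurd (Finset.mem_univ _) hi
  refine ⟨main, fun F hF1 hF2 => ?_⟩
  obtain ⟨H, hH, hhom, h⟩ := main r ⊥ Ideal.isPrime_bot (Pool.Agent.U163.ZP.trdeg_bot r) F (by
    intro s _ a a' _ hne α
    exact Pool.Agent.U163.ZP.not_mem_bot (fun l => Pool.Agent.U163.ZP.toQ_ne_zero (hF1 l))
      (fun l => Pool.Agent.U163.ZP.not_isUnit_toQ (hF1 l)) hF2 hne α)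
  refine ⟨H, fun h0 => hH (Ideal.mem_bot.2 h0), fun h1 => hhom ?_ h1, h⟩
  intro f hf j
  rw [Ideal.mem_bot] at hf ⊢
  rw [hf, map_zero]

end Pool.Agent.Results.MP_b7926e_nt.SeveralParameters
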